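import Pool.Agent.H65.CZF.TB

/-!
# The upper bound for the number of the zeros, for one field
-/

set_option autoImplicit false

open NumberField NumberField.InfinitePlace Complex Filter Topology MeasureTheory Set

namespace Pool.Agent.H25.CZF

open Pool.Agent.H65.CZF Pool.Agent.H33.HC Pool.Agent.H33.HH Pool.Agent.H28.RC Pool.Agent.H37.CV
open Pool.Agent.H65.CRZ (zc St SZ Zx cA cc)
open Pool.Agent.H65.CRG (LFg VQ cQ kn pm qm CZ)

/-- the sum over a finite set is at most the majorant of the terms outside of a small set -/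
theorem sum_split {α : Type} (U V : Set α) (hU : U.Finite) (hV : V.Finite) (f : α → ℝ)
    (M : ℝ) (hM : 0 ≤ M) (h0 : ∀ a ∈ V, 0 ≤ f a) (h1 : ∀ a ∈ U, a ∉ V → f a ≤ M) :
    ∑ᶠ a ∈ U, f a ≤ M * (U.ncard : ℝ) + ∑ᶠ a ∈ V, f a := by
  classical
  rw [finsum_mem_eq_finite_toFinset_sum f hU, finsum_mem_eq_finite_toFinset_sum f hV,
    Set.ncard_eq_toFinset_card U hU]
  have e1 : ∑ a ∈ hU.toFinset, f a ≤ ∑ a ∈ hU.toFinset, (M + if a ∈ V then f a else 0) := by
    refine Finset.sum_le_sum fun a ha => ?_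
    by_cases hv : a ∈ V
    · rw [if_pos hv]; linarith
    · rw [if_neg hv]
      have := h1 a (hU.mem_toFinset.mp ha) hv
      linarith
  have e2 : ∑ a ∈ hU.toFinset, (if a ∈ V then f a else 0) ≤ ∑ a ∈ hV.toFinset, f a := by
    rw [← Finset.sum_filter]
    refine Finset.sum_le_sum_of_subset_of_nonneg ?_ ?_
    · intro a ha
      rw [Finset.mem_filter] at ha
      exact hV.mem_toFinset.mpr ha.2
    · intro a ha _
      exact h0 a (hV.mem_toFinset.mp ha)
  rw [Finset.sum_add_distrib, Finset.sum_const, nsmul_eq_mul] at e1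
  linarith [mul_comm M (hU.toFinset.card : ℝ)]

theorem pf_UPK (h1 : T_ZUP) (h2 : T_FNZ) (h3 : T_ENA) (h4 : Pool.Agent.H33.HH.T_KA) : T_UPK := by
  intro ε hε
  obtain ⟨δ, hδ⟩ : ∃ δ : ℝ, δ = min ε 1 / 4 := ⟨_, rfl⟩
  have hδ0 : 0 < δ := by rw [hδ]; exact div_pos (lt_min hε one_pos) four_pos
  have hδ1 : 4 * δ ≤ 1 := by rw [hδ]; linarith [min_le_right ε 1]
  have hδε : 4 * δ ≤ ε := by rw [hδ]; linarith [min_le_left ε 1]
  obtain ⟨T₀, hT₀, hZ⟩ := h1 δ hδ0
  refine ⟨T₀, hT₀, fun T hT => ?_⟩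
  obtain ⟨A₀, hA₀, hZ⟩ := hZ T hT
  intro K _ _ _
  have hTp : 0 < T := lt_of_lt_of_le hT₀ hT
  have hπ := Real.pi_pos
  have hTπ : 0 < T / Real.pi := div_pos hTp hπ
  have hD : (1 : ℝ) ≤ |(discr K : ℝ)| := by
    have := Int.one_le_abs (NumberField.discr_ne_zero K)
    exact_mod_cast this
  obtain ⟨D, hDe⟩ : ∃ D : ℝ, D = |(discr K : ℝ)| := ⟨_, rfl⟩
  rw [← hDe] at hD
  obtain ⟨⟨c, x₁, hc, hx₁, hcard⟩, h4'⟩ := h4 K
  obtain ⟨x₂, hx₂, hfin⟩ := h4' 1 one_pos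
  obtain ⟨B, hB⟩ : ∃ B : ℝ, B = (2 * Real.pi * A₀) ^ 2 := ⟨_, rfl⟩
  have hnz : ∀ x : ℝ, ∀ χ ∈ Ui K x, EnF χ ∧ 0 ≤ nz T χ := by
    intro x χ hχ
    have e := h3 K χ (Or.inr hχ.1)
    have := (h2 K χ e).2 T
    exact ⟨e, this.2.2.1.trans this.2.2.2⟩
  have hVf : (Ui K B).Finite := by
    refine (hfin (max B x₂) (le_max_right _ _)).1.subset ?_
    intro χ hχ
    exact ⟨hχ.1, hχ.2.trans (le_max_left _ _)⟩
  obtain ⟨S, hS⟩ : ∃ S : ℝ, S = ∑ᶠ χ ∈ Ui K B, nz T χ := ⟨_, rfl⟩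
  have hlog2 : 0 < Real.log 2 := Real.log_pos one_lt_two
  obtain ⟨k, hk⟩ : ∃ k : ℝ, k = c * δ * (T / Real.pi) * (Real.log 2 / 2) := ⟨_, rfl⟩
  have hk0 : 0 < k := by rw [hk]; positivity
  obtain ⟨x₃, hx₃⟩ : ∃ x₃ : ℝ, x₃ = Real.exp (Real.log D / δ) := ⟨_, rfl⟩
  refine ⟨max 2 (max x₁ (max x₂ (max x₃ (S / k)))), le_max_left _ _, fun x hx => ?_⟩
  have g2 : 2 ≤ x := (le_max_left _ _).trans hx
  have hx' := (le_max_right _ _).trans hx
  have g1 : x₁ ≤ x := (le_max_left _ _).trans hx'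
  have hx'' := (le_max_right _ _).trans hx'
  have g3 : x₂ ≤ x := (le_max_left _ _).trans hx''
  have hx4 := (le_max_right _ _).trans hx''
  have g4 : x₃ ≤ x := (le_max_left _ _).trans hx4
  have g5 : S / k ≤ x := (le_max_right _ _).trans hx4
  have hUf := (hfin x g3).1
  have hxp : 0 < x := by linarith
  have hlx : Real.log 2 ≤ Real.log x := Real.log_le_log (by norm_num) g2
  have hlx0 : 0 < Real.log x := lt_of_lt_of_le hlog2 hlx
  have hlD : Real.log D ≤ δ * Real.log x := by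
    have : Real.log D / δ ≤ Real.log x := by
      have h := Real.log_le_log (by rw [hx₃]; exact Real.exp_pos _) g4
      rwa [hx₃, Real.log_exp] at h
    rw [div_le_iff₀ hδ0] at this
    linarith [mul_comm δ (Real.log x)]
  have hmain : ∀ χ ∈ Ui K x, χ ∉ Ui K B →
      nz T χ ≤ (1 + δ) * (T / Real.pi * ((1 + δ) * (Real.log x / 2))) := by
    intro χ hχ hχB
    obtain ⟨e, -⟩ := hnz x χ hχ
    have hnB : B < nm χ.f := by
      by_contra hcon
      exact hχB ⟨hχ.1, not_lt.mp hcon⟩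
    have hB0 : 0 ≤ B := by rw [hB]; positivity
    have hn0 : 0 < nm χ.f := lt_of_le_of_lt hB0 hnB
    have hcnd : cnd K χ.f = D * nm χ.f := by rw [hDe]; rfl
    have hA : A₀ ≤ cA K χ.f := by
      rw [cA, le_div_iff₀ (by positivity)]
      refine Real.le_sqrt_of_sq_le ?_
      rw [hcnd]
      calc (A₀ * (2 * Real.pi)) ^ 2 = B := by rw [hB]; ring
        _ ≤ nm χ.f := hnB.le
        _ ≤ D * nm χ.f := le_mul_of_one_le_left hn0.le hD
    have hz := hZ K χ e hA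
    have hcpos : 0 < cA K χ.f := by linarith
    have hle : cA K χ.f ≤ Real.sqrt (D * x) := by
      rw [cA, hcnd]
      have h2π : 1 ≤ 2 * Real.pi := by linarith [Real.pi_gt_three]
      refine (div_le_self (Real.sqrt_nonneg _) h2π).trans ?_
      exact Real.sqrt_le_sqrt (mul_le_mul_of_nonneg_left hχ.2 (by linarith))
    have hlog : Real.log (cA K χ.f) ≤ (1 + δ) * (Real.log x / 2) := by
      refine (Real.log_le_log hcpos hle).trans ?_
      rw [Real.log_sqrt (by positivity), Real.log_mul (by linarith) hxp.ne']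
      linarith
    refine hz.trans ?_
    refine mul_le_mul_of_nonneg_left ?_ (by linarith)
    exact mul_le_mul_of_nonneg_left hlog hTπ.le
  have hs := sum_split (Ui K x) (Ui K B) hUf hVf (nz T)
    ((1 + δ) * (T / Real.pi * ((1 + δ) * (Real.log x / 2)))) (by positivity)
    (fun χ hχ => (hnz B χ hχ).2) hmain
  rw [← hS] at hs
  obtain ⟨n, hn⟩ : ∃ n : ℝ, n = ((Ui K x).ncard : ℝ) := ⟨_, rfl⟩
  obtain ⟨L, hL⟩ : ∃ L : ℝ, L = T / Real.pi * (Real.log x / 2) := ⟨_, rfl⟩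
  rw [← hn] at hs ⊢
  have hcn : c * x ^ 2 ≤ n := by rw [hn]; exact hcard x g1
  have hL0 : 0 < L := by rw [hL]; positivity
  have hSn : S ≤ δ * L * n := by
    rw [div_le_iff₀ hk0] at g5
    have a1 : x * k ≤ c * δ * L * x := by
      rw [hk, hL]
      have : c * δ * (T / Real.pi) * (Real.log 2 / 2) ≤
          c * δ * (T / Real.pi) * (Real.log x / 2) :=
        mul_le_mul_of_nonneg_left (by linarith) (by positivity)
      nlinarith
    have a2 : c * x ≤ n := by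
      refine le_trans ?_ hcn
      have : x ≤ x ^ 2 := by nlinarith
      exact mul_le_mul_of_nonneg_left this hc.le
    have a3 : δ * L * (c * x) ≤ δ * L * n :=
      mul_le_mul_of_nonneg_left a2 (by positivity)
    nlinarith
  have hn0 : 0 ≤ n := by rw [hn]; exact Nat.cast_nonneg _
  have hfinal : (1 + δ) * (T / Real.pi * ((1 + δ) * (Real.log x / 2))) = (1 + δ) ^ 2 * L := by
    rw [hL]; ring
  rw [hfinal] at hs
  have hLn : 0 ≤ L * n := mul_nonneg hL0.le hn0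
  have h5 : (1 + δ) ^ 2 + δ ≤ 1 + ε := by nlinarith
  rw [← hL]
  calc ∑ᶠ χ ∈ Ui K x, nz T χ ≤ (1 + δ) ^ 2 * L * n + S := hs
    _ ≤ (1 + δ) ^ 2 * L * n + δ * L * n := by linarith
    _ = ((1 + δ) ^ 2 + δ) * (L * n) := by ring
    _ ≤ (1 + ε) * (L * n) := mul_le_mul_of_nonneg_right h5 hLn
    _ = (1 + ε) * L * n := by ring

end Pool.Agent.H25.CZF
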